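import Pool.Agent.Helper19.HV.Curve
import Pool.Agent.Helper91.PL.A6

/-!
# Project HV, module AFF: affine substitutions
-/

set_option autoImplicit false

open Polynomial

namespace Pool.Agent.Helper19.HV

noncomputable section

open PL

/-- AFF.  Affine substitutions. -/
theorem mAFF {F : Type} [Field F] (a b : F) (hab : a ≠ b) :
    ∃ τ : RatFunc F →+* RatFunc F, (∀ x : P1 (RatFunc F), val 0 (Option.map τ x) = val a x) ∧
      ∀ x : P1 (RatFunc F), val 1 (Option.map τ x) = val b x := by
  have hba : b - a ≠ 0 := sub_ne_zero.2 (Ne.symm hab)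
  let φ : Polynomial F →+* Polynomial F :=
    Polynomial.compRingHom (Polynomial.C (b - a) * Polynomial.X + Polynomial.C a)
  have hφe : ∀ P : Polynomial F,
      φ P = P.comp (Polynomial.C (b - a) * Polynomial.X + Polynomial.C a) := fun P => rfl
  have hφ : nonZeroDivisors (Polynomial F) ≤ (nonZeroDivisors (Polynomial F)).comap φ := by
    intro P hP
    rw [Submonoid.mem_comap, mem_nonZeroDivisors_iff_ne_zero]
    intro h0
    have hP0 : P ≠ 0 := nonZeroDivisors.ne_zero hP
    rw [hφe, Polynomial.comp_eq_zero_iff] at h0
    rcases h0 with h0 | ⟨_, h0⟩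
    · exact hP0 h0
    · have h1 : (Polynomial.C (b - a) * Polynomial.X + Polynomial.C a).natDegree = 1 :=
        Polynomial.natDegree_linear hba
      rw [h0, Polynomial.natDegree_C] at h1
      exact zero_ne_one h1
  have hev : ∀ (c : F) (P : Polynomial F), (φ P).eval c = P.eval ((b - a) * c + a) := by
    intro c P
    rw [hφe, Polynomial.eval_comp]
    congr 1
    simp
  refine ⟨RatFunc.mapRingHom φ hφ, fun x => ?_, fun x => ?_⟩
  · cases x with
    | none => rfl
    | some f =>
      have h := a6_map φ hφ (RingHom.id F) a 0 (fun P => by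
        rw [hev, mul_zero, zero_add]; rfl) f
      rw [Option.map_some, h]
      exact Option.map_id'
  · cases x with
    | none => rfl
    | some f =>
      have h := a6_map φ hφ (RingHom.id F) b 1 (fun P => by
        rw [hev, mul_one, sub_add_cancel]; rfl) f
      rw [Option.map_some, h]
      exact Option.map_id'

end

end Pool.Agent.Helper19.HV
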